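import Mathlib

/-!
RIGIDITY OF QUANTISED SPECTRA.

`t i M = ∑ j, lam i j ^ M` (traces of powers), sizes `s i → ∞`.  If the low lying levels `-s log lam` are asymptotically in
`c (h + ℕ)`, the traces at `M ≈ x s` are bounded, and they vary slowly in `i`, then the multiplicities are
eventually constant and the traces converge for every `x > 0`.  The slow variation is needed only for large `x`.
-/

set_option autoImplicit false

namespace Ann
open Finset Filter Topology Real

/-- traces of powers -/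
noncomputable def tp {d : ℕ} (lam : Fin d → ℝ) (M : ℕ) : ℝ := ∑ j, lam j ^ M

/-- the data and hypotheses -/
structure Spec (s : ℕ → ℝ) (d : ℕ → ℕ) (lam : ∀ i, Fin (d i) → ℝ) (c h : ℝ) : Prop where
  spos : ∀ i, 0 < s i
  stop : Tendsto s atTop atTop
  cpos : 0 < c
  hpos : 0 ≤ h
  lam0 : ∀ i j, 0 ≤ lam i j
  lam1 : ∀ i j, lam i j ≤ 1
  quant : ∀ K ε : ℝ, 0 < ε → ∀ᶠ i in atTop, ∀ j, rexp (-(K / s i)) ≤ lam i j →
    ∃ n : ℕ, |-(s i * Real.log (lam i j)) - c * (h + n)| < ε
  bdd : ∀ x : ℝ, 0 < x → ∃ C : ℝ, ∀ᶠ i in atTop, tp (lam i) ⌊x * s i⌋₊ ≤ C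

section
variable {s : ℕ → ℝ} {d : ℕ → ℕ} {lam : ∀ i, Fin (d i) → ℝ} {c h : ℝ}

/-- the set of the eigenvalues of level `k` -/
noncomputable def lev (s : ℕ → ℝ) (d : ℕ → ℕ) (lam : ∀ i, Fin (d i) → ℝ) (c h : ℝ) (k i : ℕ) : Finset (Fin (d i)) :=
  univ.filter (fun j => 0 < lam i j ∧ |-(s i * Real.log (lam i j)) - c * (h + k)| < c / 4)

/-- the eigenvalues above level `m - 1` -/
noncomputable def hi (s : ℕ → ℝ) (d : ℕ → ℕ) (lam : ∀ i, Fin (d i) → ℝ) (c h : ℝ) (m i : ℕ) : Finset (Fin (d i)) :=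
  univ.filter (fun j => lam i j < rexp (-((c * (h + m) - c / 2) / s i)))

/-- the multiplicity of level `k` -/
noncomputable def mul (s : ℕ → ℝ) (d : ℕ → ℕ) (lam : ∀ i, Fin (d i) → ℝ) (c h : ℝ) (k i : ℕ) : ℕ :=
  (lev s d lam c h k i).card

theorem mem_lev {k i : ℕ} {j : Fin (d i)} : j ∈ lev s d lam c h k i ↔
    0 < lam i j ∧ |-(s i * Real.log (lam i j)) - c * (h + k)| < c / 4 := by
  unfold lev
  rw [mem_filter]
  simp

theorem mem_hi {m i : ℕ} {j : Fin (d i)} : j ∈ hi s d lam c h m i ↔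
    lam i j < rexp (-((c * (h + m) - c / 2) / s i)) := by
  unfold hi
  rw [mem_filter]
  simp

theorem lev_disj (H : Spec s d lam c h) {k l i : ℕ} (hkl : k ≠ l) : Disjoint (lev s d lam c h k i) (lev s d lam c h l i) := by
  rw [Finset.disjoint_left]
  intro j h1 h2
  rw [mem_lev] at h1 h2
  have h3 := abs_lt.1 h1.2
  have h4 := abs_lt.1 h2.2
  have hc := H.cpos
  rcases lt_or_gt_of_ne hkl with hlt | hlt
  · have : (k : ℝ) + 1 ≤ l := by exact_mod_cast hlt
    nlinarith
  · have : (l : ℝ) + 1 ≤ k := by exact_mod_cast hlt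
    nlinarith

/-- eventually every eigenvalue is of level `< m` or above -/
theorem cover (H : Spec s d lam c h) (m : ℕ) : ∀ᶠ i in atTop, ∀ j : Fin (d i),
    j ∉ hi s d lam c h m i → ∃ k < m, j ∈ lev s d lam c h k i := by
  have hc := H.cpos
  filter_upwards [H.quant (c * (h + m) - c / 2) (c / 4) (by positivity)] with i hi j hj
  rw [mem_hi, not_lt] at hj
  have hpos : 0 < lam i j := lt_of_lt_of_le (Real.exp_pos _) hj
  obtain ⟨n, hn⟩ := hi j hj
  refine ⟨n, ?_, mem_lev.2 ⟨hpos, hn⟩⟩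
  have h1 : -((c * (h + m) - c / 2) / s i) ≤ Real.log (lam i j) := (Real.le_log_iff_exp_le hpos).2 hj
  have h2 : -(s i * Real.log (lam i j)) ≤ c * (h + m) - c / 2 := by
    have hs := H.spos i
    have := mul_le_mul_of_nonneg_left h1 hs.le
    rw [mul_neg, mul_div_cancel₀ _ hs.ne'] at this
    linarith
  have h3 := abs_lt.1 hn
  by_contra hcon
  have : (m : ℝ) ≤ n := by exact_mod_cast not_lt.1 hcon
  nlinarith

/-- the levels `< m` and the rest are disjoint -/
theorem lev_hi (H : Spec s d lam c h) {k m i : ℕ} (hk : k < m) : Disjoint (lev s d lam c h k i) (hi s d lam c h m i) := by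
  rw [Finset.disjoint_left]
  intro j h1 h2
  rw [mem_lev] at h1
  rw [mem_hi] at h2
  have hs := H.spos i
  have hc := H.cpos
  have h3 : Real.log (lam i j) < -((c * (h + m) - c / 2) / s i) := (Real.log_lt_iff_lt_exp h1.1).2 h2
  have h4 : c * (h + m) - c / 2 < -(s i * Real.log (lam i j)) := by
    have := mul_lt_mul_of_pos_left h3 hs
    rw [mul_neg, mul_div_cancel₀ _ hs.ne'] at this
    linarith
  have h5 := abs_lt.1 h1.2
  have : (k : ℝ) + 1 ≤ m := by exact_mod_cast hk
  nlinarith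

/-- decomposition of the traces -/
theorem tp_split (H : Spec s d lam c h) (m : ℕ) : ∀ᶠ i in atTop, ∀ M : ℕ,
    tp (lam i) M = (∑ k ∈ range m, ∑ j ∈ lev s d lam c h k i, lam i j ^ M) + ∑ j ∈ hi s d lam c h m i, lam i j ^ M := by
  filter_upwards [cover H m] with i hi' M
  have hd : Set.PairwiseDisjoint (↑(range m)) (fun k => lev s d lam c h k i) := by
    intro k _ l _ hkl
    exact lev_disj H hkl
  rw [← sum_biUnion hd, ← sum_union]
  · unfold tp
    apply (sum_subset (subset_univ _) _).symm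
    intro j _ hj
    exfalso
    rw [mem_union, mem_biUnion] at hj
    push_neg at hj
    obtain ⟨k, hk, hjk⟩ := hi' j hj.2
    exact hj.1 k (mem_range.2 hk) hjk
  · rw [Finset.disjoint_left]
    intro j h1 h2
    rw [mem_biUnion] at h1
    obtain ⟨k, hk, hjk⟩ := h1
    exact (Finset.disjoint_left.1 (lev_hi H (mem_range.1 hk))) hjk h2

/-- the tail -/
theorem tail_le (H : Spec s d lam c h) (m i M M' : ℕ) (hM : M' ≤ M) :
    ∑ j ∈ hi s d lam c h m i, lam i j ^ M ≤
      rexp (-(((M : ℝ) - M') / s i * (c * (h + m) - c / 2))) * tp (lam i) M' := by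
  have hs := H.spos i
  have h1 : ∀ j ∈ hi s d lam c h m i, lam i j ^ M ≤
      rexp (-(((M : ℝ) - M') / s i * (c * (h + m) - c / 2))) * lam i j ^ M' := by
    intro j hj
    rw [mem_hi] at hj
    have h2 : lam i j ^ M = lam i j ^ (M - M') * lam i j ^ M' := by
      rw [← pow_add, Nat.sub_add_cancel hM]
    rw [h2]
    apply mul_le_mul_of_nonneg_right _ (pow_nonneg (H.lam0 i j) _)
    calc lam i j ^ (M - M') ≤ rexp (-((c * (h + m) - c / 2) / s i)) ^ (M - M') :=
          pow_le_pow_left₀ (H.lam0 i j) hj.le _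
      _ = rexp (-(((M : ℝ) - M') / s i * (c * (h + m) - c / 2))) := by
          rw [← Real.exp_nat_mul, Nat.cast_sub hM]
          congr 1
          field_simp
  calc ∑ j ∈ hi s d lam c h m i, lam i j ^ M
      ≤ ∑ j ∈ hi s d lam c h m i, rexp (-(((M : ℝ) - M') / s i * (c * (h + m) - c / 2))) * lam i j ^ M' :=
        sum_le_sum h1
    _ = rexp (-(((M : ℝ) - M') / s i * (c * (h + m) - c / 2))) * ∑ j ∈ hi s d lam c h m i, lam i j ^ M' := by
        rw [mul_sum]
    _ ≤ rexp (-(((M : ℝ) - M') / s i * (c * (h + m) - c / 2))) * tp (lam i) M' := by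
        apply mul_le_mul_of_nonneg_left _ (Real.exp_pos _).le
        exact sum_le_sum_of_subset_of_nonneg (subset_univ _) (fun j _ _ => pow_nonneg (H.lam0 i j) _)

/-- eventually the energies of level `k` are close to `c (h + k)` -/
theorem lev_close (H : Spec s d lam c h) (k : ℕ) {ε : ℝ} (hε : 0 < ε) : ∀ᶠ i in atTop, ∀ j ∈ lev s d lam c h k i,
    |-(s i * Real.log (lam i j)) - c * (h + k)| < ε := by
  have hc := H.cpos
  filter_upwards [H.quant (c * (h + k) + c / 2) (min ε (c / 4)) (by positivity)] with i hi j hj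
  rw [mem_lev] at hj
  have hs := H.spos i
  have h1 : rexp (-((c * (h + k) + c / 2) / s i)) ≤ lam i j := by
    rw [← Real.le_log_iff_exp_le hj.1]
    have h2 := abs_lt.1 hj.2
    rw [neg_le, le_div_iff₀ hs]
    linarith
  obtain ⟨n, hn⟩ := hi j h1
  have h3 : |-(s i * Real.log (lam i j)) - c * (h + n)| < c / 4 := lt_of_lt_of_le hn (min_le_right _ _)
  have h4 : n = k := by
    by_contra hne
    have := lev_disj (lam := lam) H (i := i) hne
    exact (Finset.disjoint_left.1 this) (mem_lev.2 ⟨hj.1, h3⟩) (mem_lev.2 hj)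
  rw [h4] at hn
  exact lt_of_lt_of_le hn (min_le_left _ _)

/-- the multiplicities are bounded -/
theorem mul_bdd (H : Spec s d lam c h) (k : ℕ) : ∃ C : ℝ, 0 ≤ C ∧ ∀ᶠ i in atTop, (mul s d lam c h k i : ℝ) ≤ C := by
  have hc := H.cpos
  obtain ⟨C, hC⟩ := H.bdd 1 one_pos
  refine ⟨|C| * rexp (c * (h + k) + c / 4), by positivity, ?_⟩
  filter_upwards [hC] with i hi
  rw [one_mul] at hi
  have hs := H.spos i
  have h1 : ∀ j ∈ lev s d lam c h k i, rexp (-(c * (h + k) + c / 4)) ≤ lam i j ^ ⌊s i⌋₊ := by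
    intro j hj
    rw [mem_lev] at hj
    have h2 := abs_lt.1 hj.2
    rw [← Real.rpow_natCast, Real.rpow_def_of_pos hj.1]
    apply Real.exp_le_exp.2
    have h3 : (⌊s i⌋₊ : ℝ) ≤ s i := Nat.floor_le hs.le
    have h4 : Real.log (lam i j) ≤ 0 := Real.log_nonpos (H.lam0 i j) (H.lam1 i j)
    nlinarith
  have h2 : (mul s d lam c h k i : ℝ) * rexp (-(c * (h + k) + c / 4)) ≤ |C| := by
    calc (mul s d lam c h k i : ℝ) * rexp (-(c * (h + k) + c / 4))
        = ∑ j ∈ lev s d lam c h k i, rexp (-(c * (h + k) + c / 4)) := by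
          rw [sum_const, nsmul_eq_mul]
          rfl
      _ ≤ ∑ j ∈ lev s d lam c h k i, lam i j ^ ⌊s i⌋₊ := sum_le_sum h1
      _ ≤ tp (lam i) ⌊s i⌋₊ :=
          sum_le_sum_of_subset_of_nonneg (subset_univ _) (fun j _ _ => pow_nonneg (H.lam0 i j) _)
      _ ≤ C := hi
      _ ≤ |C| := le_abs_self C
  calc (mul s d lam c h k i : ℝ)
      = (mul s d lam c h k i : ℝ) * rexp (-(c * (h + k) + c / 4)) * rexp (c * (h + k) + c / 4) := by
        rw [mul_assoc, ← Real.exp_add]
        simp
    _ ≤ |C| * rexp (c * (h + k) + c / 4) := mul_le_mul_of_nonneg_right h2 (Real.exp_pos _).le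

/-- the contribution of one level -/
theorem lev_tendsto (H : Spec s d lam c h) (k : ℕ) {x : ℝ} {M : ℕ → ℕ}
    (hM : Tendsto (fun i => (M i : ℝ) / s i) atTop (𝓝 x)) :
    Tendsto (fun i => ∑ j ∈ lev s d lam c h k i, lam i j ^ M i - mul s d lam c h k i * rexp (-(c * x * (h + k))))
      atTop (𝓝 0) := by
  obtain ⟨C, hC0, hC⟩ := mul_bdd H k
  rw [Metric.tendsto_atTop]
  intro δ hδ
  have hcont : Continuous (fun p : ℝ × ℝ => rexp (-(p.1 * p.2))) := by fun_prop
  obtain ⟨ε, hε, hε2⟩ := Metric.continuous_iff.1 hcont (x, c * (h + k)) (δ / (C + 1)) (by positivity)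
  have h1 := lev_close H k hε
  have h2 : ∀ᶠ i in atTop, |(M i : ℝ) / s i - x| < ε := by
    have := Metric.tendsto_nhds.1 hM ε hε
    simpa [Real.dist_eq] using this
  have hev := h1.and (h2.and hC)
  obtain ⟨N, hN⟩ := eventually_atTop.1 hev
  refine ⟨N, fun i hi => ?_⟩
  obtain ⟨h3, h4, h5⟩ := hN i hi
  have hs := H.spos i
  rw [dist_zero_right, Real.norm_eq_abs]
  have e : (mul s d lam c h k i : ℝ) * rexp (-(c * x * (h + k))) =
      ∑ j ∈ lev s d lam c h k i, rexp (-(x * (c * (h + k)))) := by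
    rw [sum_const, nsmul_eq_mul]
    unfold mul
    congr 2
    ring
  rw [e, ← sum_sub_distrib]
  have h6 : ∀ j ∈ lev s d lam c h k i, |lam i j ^ M i - rexp (-(x * (c * (h + k))))| ≤ δ / (C + 1) := by
    intro j hj
    have h7 := h3 j hj
    have hpos := (mem_lev.1 hj).1
    have h8 : lam i j ^ M i = rexp (-((M i : ℝ) / s i * -(s i * Real.log (lam i j)))) := by
      rw [← Real.rpow_natCast, Real.rpow_def_of_pos hpos]
      congr 1
      field_simp
    rw [h8]
    have h9 := hε2 ((M i : ℝ) / s i, -(s i * Real.log (lam i j))) (by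
      rw [Prod.dist_eq]
      exact max_lt (by rw [Real.dist_eq]; exact h4) (by rw [Real.dist_eq]; exact h7))
    rw [Real.dist_eq] at h9
    exact h9.le
  calc |∑ j ∈ lev s d lam c h k i, (lam i j ^ M i - rexp (-(x * (c * (h + k)))))|
      ≤ ∑ j ∈ lev s d lam c h k i, |lam i j ^ M i - rexp (-(x * (c * (h + k))))| := abs_sum_le_sum_abs _ _
    _ ≤ ∑ j ∈ lev s d lam c h k i, δ / (C + 1) := sum_le_sum h6
    _ = mul s d lam c h k i * (δ / (C + 1)) := by
        rw [sum_const, nsmul_eq_mul]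
        rfl
    _ ≤ C * (δ / (C + 1)) := mul_le_mul_of_nonneg_right h5 (by positivity)
    _ < δ := by
        rw [mul_div_assoc', div_lt_iff₀ (by linarith)]
        nlinarith

/-- the first `m` levels, with the actual multiplicities -/
noncomputable def part (s : ℕ → ℝ) (d : ℕ → ℕ) (lam : ∀ i, Fin (d i) → ℝ) (c h : ℝ) (m i : ℕ) (x : ℝ) : ℝ :=
  ∑ k ∈ range m, mul s d lam c h k i * rexp (-(c * x * (h + k)))

theorem floor_div (H : Spec s d lam c h) {y : ℝ} (hy : 0 ≤ y) :
    Tendsto (fun i => (⌊y * s i⌋₊ : ℝ) / s i) atTop (𝓝 y) :=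
  (tendsto_nat_floor_mul_div_atTop hy).comp H.stop

/-- the error of the first `m` levels at `x`: tail bound with the trace at `y < x` -/
theorem tp_part (H : Spec s d lam c h) (m : ℕ) {x y : ℝ} (hy : 0 < y) (hxy : y < x) {C : ℝ}
    (hC : ∀ᶠ i in atTop, tp (lam i) ⌊y * s i⌋₊ ≤ C) {M : ℕ → ℕ}
    (hM : Tendsto (fun i => (M i : ℝ) / s i) atTop (𝓝 x)) {ε : ℝ} (hε : 0 < ε) :
    ∀ᶠ i in atTop, |tp (lam i) (M i) - part s d lam c h m i x| ≤
      ε + C * rexp (-((x - y) * (c * (h + m) - c / 2))) := by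
  -- the levels
  have h1 : Tendsto (fun i => ∑ k ∈ range m, (∑ j ∈ lev s d lam c h k i, lam i j ^ M i -
      mul s d lam c h k i * rexp (-(c * x * (h + k))))) atTop (𝓝 0) := by
    have := tendsto_finsetSum (range m) (fun k _ => lev_tendsto H k hM)
    simpa using this
  -- the tail
  have h2 : Tendsto (fun i => rexp (-(((M i : ℝ) - ⌊y * s i⌋₊) / s i * (c * (h + m) - c / 2)))) atTop
      (𝓝 (rexp (-((x - y) * (c * (h + m) - c / 2))))) := by
    apply (Real.continuous_exp.tendsto _).comp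
    apply Tendsto.neg
    apply Tendsto.mul_const
    have := hM.sub (floor_div H hy.le)
    refine this.congr fun i => ?_
    rw [sub_div]
  have hC0 : ∀ᶠ i in atTop, (0 : ℝ) ≤ tp (lam i) ⌊y * s i⌋₊ :=
    Eventually.of_forall fun i => sum_nonneg fun j _ => pow_nonneg (H.lam0 i j) _
  have hle : ∀ᶠ i in atTop, ⌊y * s i⌋₊ ≤ M i := by
    have h3 := (hM.sub (floor_div H hy.le)).eventually (lt_mem_nhds (show (0 : ℝ) < x - y by linarith))
    filter_upwards [h3] with i hi
    have hs := H.spos i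
    rw [← sub_div] at hi
    have h4 : (0 : ℝ) < (M i : ℝ) - ⌊y * s i⌋₊ := by
      by_contra hcon
      have := div_nonpos_of_nonpos_of_nonneg (not_lt.1 hcon) hs.le
      linarith
    have h5 : (⌊y * s i⌋₊ : ℝ) ≤ M i := by linarith
    exact_mod_cast h5
  have hCn : 0 ≤ C := by
    obtain ⟨i, hi1, hi2⟩ := (hC.and hC0).exists
    linarith
  have h6 : ∀ᶠ i in atTop, C * rexp (-(((M i : ℝ) - ⌊y * s i⌋₊) / s i * (c * (h + m) - c / 2))) <
      C * rexp (-((x - y) * (c * (h + m) - c / 2))) + ε / 2 :=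
    (h2.const_mul C).eventually (gt_mem_nhds (by linarith))
  have h7 : ∀ᶠ i in atTop, |∑ k ∈ range m, (∑ j ∈ lev s d lam c h k i, lam i j ^ M i -
      mul s d lam c h k i * rexp (-(c * x * (h + k))))| < ε / 2 := by
    have := Metric.tendsto_nhds.1 h1 (ε / 2) (by positivity)
    simpa [Real.dist_eq] using this
  filter_upwards [tp_split H m, hle, hC, h6, h7] with i i1 i2 i3 i4 i5
  have e : tp (lam i) (M i) - part s d lam c h m i x =
      ∑ k ∈ range m, (∑ j ∈ lev s d lam c h k i, lam i j ^ M i -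
        mul s d lam c h k i * rexp (-(c * x * (h + k)))) + ∑ j ∈ hi s d lam c h m i, lam i j ^ M i := by
    rw [i1 (M i), sum_sub_distrib]
    unfold part
    ring
  have ht := tail_le H m i (M i) _ i2
  have ht0 : 0 ≤ ∑ j ∈ hi s d lam c h m i, lam i j ^ M i :=
    sum_nonneg fun j _ => pow_nonneg (H.lam0 i j) _
  rw [e]
  calc |∑ k ∈ range m, (∑ j ∈ lev s d lam c h k i, lam i j ^ M i -
        mul s d lam c h k i * rexp (-(c * x * (h + k)))) + ∑ j ∈ hi s d lam c h m i, lam i j ^ M i|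
      ≤ |∑ k ∈ range m, (∑ j ∈ lev s d lam c h k i, lam i j ^ M i -
        mul s d lam c h k i * rexp (-(c * x * (h + k))))| + |∑ j ∈ hi s d lam c h m i, lam i j ^ M i| :=
        abs_add_le _ _
    _ ≤ ε / 2 + ∑ j ∈ hi s d lam c h m i, lam i j ^ M i := by
        rw [abs_of_nonneg ht0]
        linarith
    _ ≤ ε / 2 + rexp (-(((M i : ℝ) - ⌊y * s i⌋₊) / s i * (c * (h + m) - c / 2))) * C := by
        have := mul_le_mul_of_nonneg_left i3
          (Real.exp_pos (-(((M i : ℝ) - ⌊y * s i⌋₊) / s i * (c * (h + m) - c / 2)))).le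
        linarith
    _ ≤ ε + C * rexp (-((x - y) * (c * (h + m) - c / 2))) := by linarith

/-- the multiplicities are eventually constant -/
theorem mul_const (H : Spec s d lam c h) {X : ℝ}
    (step : ∀ x : ℝ, X < x → Tendsto (fun i => tp (lam (i + 1)) ⌊x * s (i + 1)⌋₊ - tp (lam i) ⌊x * s i⌋₊) atTop (𝓝 0))
    (k : ℕ) : ∃ n : ℕ, ∀ᶠ i in atTop, mul s d lam c h k i = n := by
  induction k using Nat.strong_induction_on with
  | _ k ih =>
    have hc := H.cpos
    have hh := H.hpos
    obtain ⟨C, hC⟩ := H.bdd 1 one_pos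
    -- the choice of `x`
    set L : ℝ := c * (h + k) with hL
    have hlim : Tendsto (fun x : ℝ => C * rexp (L + c / 2) * rexp (-(x * (c / 2)))) atTop (𝓝 0) := by
      have h1 : Tendsto (fun x : ℝ => rexp (-(x * (c / 2)))) atTop (𝓝 0) := by
        apply Real.tendsto_exp_neg_atTop_nhds_zero.comp
        exact tendsto_id.atTop_mul_const (by positivity)
      simpa using h1.const_mul (C * rexp (L + c / 2))
    obtain ⟨x, hx1, hx2, hx3⟩ := ((hlim.eventually (gt_mem_nhds (show (0 : ℝ) < 1 / 16 by norm_num))).and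
      ((eventually_gt_atTop (1 : ℝ)).and (eventually_gt_atTop X))).exists
    set q : ℝ := rexp (-(c * x * (h + k))) with hq
    have hq0 : 0 < q := Real.exp_pos _
    have hM : Tendsto (fun i => (⌊x * s i⌋₊ : ℝ) / s i) atTop (𝓝 x) := floor_div H (by linarith)
    have h1 := tp_part H (k + 1) one_pos hx2 hC hM (ε := q / 16) (by positivity)
    have htail : C * rexp (-((x - 1) * (c * (h + (k + 1 : ℕ)) - c / 2))) ≤ q / 16 := by
      have e1 : rexp (-((x - 1) * (c * (h + (k + 1 : ℕ)) - c / 2))) = rexp (L + c / 2) * rexp (-(x * (c / 2))) * q := by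
        rw [hq, ← Real.exp_add, ← Real.exp_add, hL]
        congr 1
        push_cast
        ring
      rw [e1, ← mul_assoc, ← mul_assoc]
      have := mul_le_mul_of_nonneg_right hx1.le hq0.le
      linarith
    -- the lower levels are constant
    have hlow : ∀ᶠ i in atTop, ∀ l < k, mul s d lam c h l (i + 1) = mul s d lam c h l i := by
      have : ∀ l ∈ Set.Iio k, ∀ᶠ i in atTop, mul s d lam c h l (i + 1) = mul s d lam c h l i := by
        intro l hl
        obtain ⟨n, hn⟩ := ih l hl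
        have hn' := (tendsto_add_atTop_nat 1).eventually hn
        filter_upwards [hn, hn'] with i i1 i2
        rw [i1, i2]
      have := (Filter.eventually_all_finite (Set.finite_Iio k)).2 this
      filter_upwards [this] with i hi l hl
      exact hi l hl
    have h1' := (tendsto_add_atTop_nat 1).eventually h1
    have h2 : ∀ᶠ i in atTop, |tp (lam (i + 1)) ⌊x * s (i + 1)⌋₊ - tp (lam i) ⌊x * s i⌋₊| < q / 4 := by
      have := Metric.tendsto_nhds.1 (step x hx3) (q / 4) (by positivity)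
      simpa [Real.dist_eq] using this
    have hstep : ∀ᶠ i in atTop, mul s d lam c h k (i + 1) = mul s d lam c h k i := by
      filter_upwards [h1, h1', h2, hlow] with i i1 i2 i3 i4
      have e : part s d lam c h (k + 1) (i + 1) x - part s d lam c h (k + 1) i x =
          ((mul s d lam c h k (i + 1) : ℝ) - mul s d lam c h k i) * q := by
        unfold part
        rw [sum_range_succ, sum_range_succ, sum_congr rfl (fun l hl => by rw [i4 l (mem_range.1 hl)])]
        ring
      have j1 := abs_le.1 i1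
      have j2 := abs_le.1 i2
      have j3 := abs_lt.1 i3
      have h5 : |((mul s d lam c h k (i + 1) : ℝ) - mul s d lam c h k i) * q| < q := by
        rw [← e, abs_lt]
        constructor <;> linarith
      rw [abs_mul, abs_of_pos hq0] at h5
      have h6 : |((mul s d lam c h k (i + 1) : ℝ) - mul s d lam c h k i)| < 1 := by
        by_contra hcon
        have := mul_le_mul_of_nonneg_right (not_lt.1 hcon) hq0.le
        linarith
      have h7 : |((mul s d lam c h k (i + 1) : ℤ) - mul s d lam c h k i)| < 1 := by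
        exact_mod_cast h6
      have h8 := Int.abs_lt_one_iff.1 h7
      omega
    obtain ⟨N, hN⟩ := eventually_atTop.1 hstep
    refine ⟨mul s d lam c h k N, eventually_atTop.2 ⟨N, fun i hi => ?_⟩⟩
    induction i, hi using Nat.le_induction with
    | base => rfl
    | succ i hi ih2 => rw [hN i hi, ih2]

/-- a bounded, eventually nondecreasing sequence of natural numbers is eventually constant -/
theorem nat_mono_const {u : ℕ → ℕ} (h1 : ∀ᶠ i in atTop, u i ≤ u (i + 1)) {C : ℝ} (h2 : ∀ᶠ i in atTop, (u i : ℝ) ≤ C) :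
    ∃ n : ℕ, ∀ᶠ i in atTop, u i = n := by
  obtain ⟨N, hN⟩ := eventually_atTop.1 (h1.and h2)
  have hmono : ∀ i j, N ≤ i → i ≤ j → u i ≤ u j := by
    intro i j hi hij
    induction j, hij using Nat.le_induction with
    | base => exact le_rfl
    | succ j hj ih => exact ih.trans (hN j (hi.trans hj)).1
  have hbd : ∀ i, N ≤ i → u i ≤ ⌊C⌋₊ := fun i hi => Nat.le_floor (hN i hi).2
  let P : ℕ → Prop := fun v => ∃ i, N ≤ i ∧ u i = v
  have hP : ∃ v, v ≤ ⌊C⌋₊ ∧ P v := ⟨u N, hbd N le_rfl, N, le_rfl, rfl⟩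
  classical
  obtain ⟨v0, hv0, hPv0⟩ := hP
  have hm := Nat.findGreatest_spec (P := P) hv0 hPv0
  obtain ⟨i, hi, hiv⟩ := hm
  refine ⟨Nat.findGreatest P ⌊C⌋₊, eventually_atTop.2 ⟨i, fun j hj => ?_⟩⟩
  apply le_antisymm
  · exact Nat.le_findGreatest (hbd j (hi.trans hj)) ⟨j, hi.trans hj, rfl⟩
  · rw [← hiv]
    exact hmono i j hi hj

/-- the multiplicities are eventually constant, one-sided hypothesis -/
theorem mul_const_mono (H : Spec s d lam c h) {X : ℝ}
    (step : ∀ x : ℝ, X < x → ∀ ε : ℝ, 0 < ε → ∀ᶠ i in atTop,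
      tp (lam i) ⌊x * s i⌋₊ - ε ≤ tp (lam (i + 1)) ⌊x * s (i + 1)⌋₊)
    (k : ℕ) : ∃ n : ℕ, ∀ᶠ i in atTop, mul s d lam c h k i = n := by
  induction k using Nat.strong_induction_on with
  | _ k ih =>
    have hc := H.cpos
    have hh := H.hpos
    obtain ⟨C, hC⟩ := H.bdd 1 one_pos
    -- the choice of `x`
    set L : ℝ := c * (h + k) with hL
    have hlim : Tendsto (fun x : ℝ => C * rexp (L + c / 2) * rexp (-(x * (c / 2)))) atTop (𝓝 0) := by
      have h1 : Tendsto (fun x : ℝ => rexp (-(x * (c / 2)))) atTop (𝓝 0) := by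
        apply Real.tendsto_exp_neg_atTop_nhds_zero.comp
        exact tendsto_id.atTop_mul_const (by positivity)
      simpa using h1.const_mul (C * rexp (L + c / 2))
    obtain ⟨x, hx1, hx2, hx3⟩ := ((hlim.eventually (gt_mem_nhds (show (0 : ℝ) < 1 / 16 by norm_num))).and
      ((eventually_gt_atTop (1 : ℝ)).and (eventually_gt_atTop X))).exists
    set q : ℝ := rexp (-(c * x * (h + k))) with hq
    have hq0 : 0 < q := Real.exp_pos _
    have hM : Tendsto (fun i => (⌊x * s i⌋₊ : ℝ) / s i) atTop (𝓝 x) := floor_div H (by linarith)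
    have h1 := tp_part H (k + 1) one_pos hx2 hC hM (ε := q / 16) (by positivity)
    have htail : C * rexp (-((x - 1) * (c * (h + (k + 1 : ℕ)) - c / 2))) ≤ q / 16 := by
      have e1 : rexp (-((x - 1) * (c * (h + (k + 1 : ℕ)) - c / 2))) = rexp (L + c / 2) * rexp (-(x * (c / 2))) * q := by
        rw [hq, ← Real.exp_add, ← Real.exp_add, hL]
        congr 1
        push_cast
        ring
      rw [e1, ← mul_assoc, ← mul_assoc]
      have := mul_le_mul_of_nonneg_right hx1.le hq0.le
      linarith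
    -- the lower levels are constant
    have hlow : ∀ᶠ i in atTop, ∀ l < k, mul s d lam c h l (i + 1) = mul s d lam c h l i := by
      have : ∀ l ∈ Set.Iio k, ∀ᶠ i in atTop, mul s d lam c h l (i + 1) = mul s d lam c h l i := by
        intro l hl
        obtain ⟨n, hn⟩ := ih l hl
        have hn' := (tendsto_add_atTop_nat 1).eventually hn
        filter_upwards [hn, hn'] with i i1 i2
        rw [i1, i2]
      have := (Filter.eventually_all_finite (Set.finite_Iio k)).2 this
      filter_upwards [this] with i hi l hl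
      exact hi l hl
    have h1' := (tendsto_add_atTop_nat 1).eventually h1
    have h2 := step x hx3 (q / 4) (by positivity)
    have hstep : ∀ᶠ i in atTop, mul s d lam c h k i ≤ mul s d lam c h k (i + 1) := by
      filter_upwards [h1, h1', h2, hlow] with i i1 i2 i3 i4
      have e : part s d lam c h (k + 1) (i + 1) x - part s d lam c h (k + 1) i x =
          ((mul s d lam c h k (i + 1) : ℝ) - mul s d lam c h k i) * q := by
        unfold part
        rw [sum_range_succ, sum_range_succ, sum_congr rfl (fun l hl => by rw [i4 l (mem_range.1 hl)])]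
        ring
      have j1 := abs_le.1 i1
      have j2 := abs_le.1 i2
      have h5 : -q < ((mul s d lam c h k (i + 1) : ℝ) - mul s d lam c h k i) * q := by
        rw [← e]
        linarith
      by_contra hcon
      have h6 : (mul s d lam c h k (i + 1) : ℝ) + 1 ≤ mul s d lam c h k i := by
        exact_mod_cast not_le.1 hcon
      have h7 : ((mul s d lam c h k (i + 1) : ℝ) - mul s d lam c h k i) * q ≤ (-1) * q :=
        mul_le_mul_of_nonneg_right (by linarith) hq0.le
      linarith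
    obtain ⟨C', _, hC'⟩ := mul_bdd H k
    exact nat_mono_const hstep hC'

/-- the conclusion from the constancy of the multiplicities -/
theorem rigid_of_const (H : Spec s d lam c h)
    (hmul : ∀ k : ℕ, ∃ n : ℕ, ∀ᶠ i in atTop, mul s d lam c h k i = n) :
    ∃ n : ℕ → ℕ, ∀ x : ℝ, 0 < x → Summable (fun k : ℕ => n k * rexp (-(c * x * (h + k)))) ∧
      ∀ M : ℕ → ℕ, Tendsto (fun i => (M i : ℝ) / s i) atTop (𝓝 x) →
        Tendsto (fun i => tp (lam i) (M i)) atTop (𝓝 (∑' k : ℕ, n k * rexp (-(c * x * (h + k))))) := by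
  have hc := H.cpos
  have hh := H.hpos
  choose n hn using hmul
  refine ⟨n, fun x hx => ?_⟩
  obtain ⟨C, hC⟩ := H.bdd (x / 2) (by linarith)
  have hCn : 0 ≤ C := by
    obtain ⟨i, hi⟩ := hC.exists
    exact le_trans (sum_nonneg fun j _ => pow_nonneg (H.lam0 i j) _) hi
  -- the first `m` levels are eventually constant
  have hpart : ∀ m : ℕ, ∀ᶠ i in atTop, part s d lam c h m i x = ∑ k ∈ range m, n k * rexp (-(c * x * (h + k))) := by
    intro m
    have : ∀ k ∈ Set.Iio m, ∀ᶠ i in atTop, mul s d lam c h k i = n k := fun k _ => hn k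
    filter_upwards [(Filter.eventually_all_finite (Set.finite_Iio m)).2 this] with i hi
    unfold part
    apply sum_congr rfl
    intro k hk
    rw [hi k (mem_range.1 hk)]
  have main : ∀ (M : ℕ → ℕ), Tendsto (fun i => (M i : ℝ) / s i) atTop (𝓝 x) → ∀ m : ℕ, ∀ ε : ℝ, 0 < ε →
      ∀ᶠ i in atTop, |tp (lam i) (M i) - ∑ k ∈ range m, n k * rexp (-(c * x * (h + k)))| ≤
        ε + C * rexp (-(x / 2 * (c * (h + m) - c / 2))) := by
    intro M hM m ε hε
    have h1 := tp_part H m (show (0 : ℝ) < x / 2 by linarith) (show x / 2 < x by linarith) hC hM hε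
    filter_upwards [h1, hpart m] with i i1 i2
    rw [i2, show x - x / 2 = x / 2 by ring] at i1
    exact i1
  have hM0 : Tendsto (fun i => (⌊x * s i⌋₊ : ℝ) / s i) atTop (𝓝 x) := floor_div H hx.le
  obtain ⟨C2, hC2⟩ := H.bdd x hx
  have hsum : Summable (fun k : ℕ => n k * rexp (-(c * x * (h + k)))) := by
    apply summable_of_sum_range_le (c := C2 + 1 + C * rexp (x * c))
    · intro k
      positivity
    · intro m
      obtain ⟨i, i1, i2⟩ := ((main _ hM0 m 1 one_pos).and hC2).exists
      have h3 := abs_le.1 i1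
      have h4 : rexp (-(x / 2 * (c * (h + m) - c / 2))) ≤ rexp (x * c) := by
        apply Real.exp_le_exp.2
        have : (0 : ℝ) ≤ m := Nat.cast_nonneg m
        have h5 : 0 ≤ x * c * h := by positivity
        have h6 : 0 ≤ x * c * m := by positivity
        have h7 : 0 ≤ x * c := by positivity
        nlinarith
      have h5 := mul_le_mul_of_nonneg_left h4 hCn
      linarith
  refine ⟨hsum, fun M hM => ?_⟩
  rw [Metric.tendsto_nhds]
  intro ε hε
  have h1 : Tendsto (fun m : ℕ => C * rexp (-(x / 2 * (c * (h + m) - c / 2)))) atTop (𝓝 0) := by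
    have h2 : Tendsto (fun m : ℕ => x / 2 * (c * (h + m) - c / 2)) atTop atTop := by
      have h3 : Tendsto (fun m : ℕ => (m : ℝ)) atTop atTop := tendsto_natCast_atTop_atTop
      have h4 : Tendsto (fun m : ℕ => x / 2 * c * m + x / 2 * (c * h - c / 2)) atTop atTop :=
        tendsto_atTop_add_const_right _ _ (h3.const_mul_atTop (by positivity))
      refine h4.congr fun m => ?_
      ring
    have := (Real.tendsto_exp_neg_atTop_nhds_zero.comp h2).const_mul C
    simpa using this
  have h2 := hsum.hasSum.tendsto_sum_nat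
  obtain ⟨m, m1, m2⟩ := ((h1.eventually (gt_mem_nhds (show (0 : ℝ) < ε / 4 by positivity))).and
    (Metric.tendsto_nhds.1 h2 (ε / 4) (by positivity))).exists
  filter_upwards [main M hM m (ε / 4) (by positivity)] with i hi
  rw [Real.dist_eq] at m2 ⊢
  have j1 := abs_le.1 hi
  have j2 := abs_lt.1 m2
  rw [abs_lt]
  constructor <;> linarith

/-- **Rigidity of quantised spectra.** -/
theorem rigid (H : Spec s d lam c h) {X : ℝ}
    (step : ∀ x : ℝ, X < x → Tendsto (fun i => tp (lam (i + 1)) ⌊x * s (i + 1)⌋₊ - tp (lam i) ⌊x * s i⌋₊) atTop (𝓝 0)) :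
    ∃ n : ℕ → ℕ, ∀ x : ℝ, 0 < x → Summable (fun k : ℕ => n k * rexp (-(c * x * (h + k)))) ∧
      ∀ M : ℕ → ℕ, Tendsto (fun i => (M i : ℝ) / s i) atTop (𝓝 x) →
        Tendsto (fun i => tp (lam i) (M i)) atTop (𝓝 (∑' k : ℕ, n k * rexp (-(c * x * (h + k))))) :=
  rigid_of_const H (mul_const H step)

/-- **Rigidity of quantised spectra**, one-sided hypothesis. -/
theorem rigid_mono (H : Spec s d lam c h) {X : ℝ}
    (step : ∀ x : ℝ, X < x → ∀ ε : ℝ, 0 < ε → ∀ᶠ i in atTop,
      tp (lam i) ⌊x * s i⌋₊ - ε ≤ tp (lam (i + 1)) ⌊x * s (i + 1)⌋₊) :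
    ∃ n : ℕ → ℕ, ∀ x : ℝ, 0 < x → Summable (fun k : ℕ => n k * rexp (-(c * x * (h + k)))) ∧
      ∀ M : ℕ → ℕ, Tendsto (fun i => (M i : ℝ) / s i) atTop (𝓝 x) →
        Tendsto (fun i => tp (lam i) (M i)) atTop (𝓝 (∑' k : ℕ, n k * rexp (-(c * x * (h + k))))) :=
  rigid_of_const H (mul_const_mono H step)

end
end Ann
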